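import Pool.Agent.Run7.h188.FW.Stm

/-! Project FW of helper188 (Fine-Wilf theorem for generic rigidity), piece RK: the rank of the
rigidity matrix of the distance graph. -/

set_option autoImplicit false

namespace Run7.h462.FWR

open Finset Polynomial Pool.Agent.H283R2.DR Pool.Agent.H789R5 Pool.Agent.Run7.h188.FW

/-- the pairs `(k, j)`, `j + e (k + 1) < n` -/
abbrev Ix (n d : ℕ) (e : ℕ → ℕ) : Type := Σ k : Fin (d + 1), Fin (n - e (k + 1))

/-- the placement -/
noncomputable def pl (q n d : ℕ) : Fin n → Fin d → ℝ := fun j i => nod ℝ q (i + 1) ^ (j : ℕ)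

/-- lower end -/
def lo {n d : ℕ} {e : ℕ → ℕ} (x : Ix n d e) : Fin n := ⟨x.2, by omega⟩

/-- upper end -/
def up {n d : ℕ} {e : ℕ → ℕ} (x : Ix n d e) : Fin n := ⟨x.2 + e (x.1 + 1), by omega⟩

/-- the extension by zero -/
noncomputable def ex {n d : ℕ} {e : ℕ → ℕ} (g : Ix n d e → ℝ) (k j : ℕ) : ℝ :=
  if h : k < d + 1 then (if h' : j < n - e (k + 1) then g ⟨⟨k, h⟩, ⟨j, h'⟩⟩ else 0) else 0

theorem ex_of_ge {n d : ℕ} {e : ℕ → ℕ} (g : Ix n d e → ℝ) {k j : ℕ} (h : n ≤ j + e (k + 1)) :
    ex g k j = 0 := by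
  unfold ex
  split_ifs with h1 h2
  · omega
  · rfl
  · rfl

theorem ex_apply {n d : ℕ} {e : ℕ → ℕ} (g : Ix n d e → ℝ) (x : Ix n d e) :
    ex g x.1 x.2 = g x := by
  unfold ex
  rw [dif_pos x.1.2, dif_pos x.2.2]

/-- the column of a linear combination of the rows -/
theorem col (q : ℕ) {n d : ℕ} {e : ℕ → ℕ} (he : ∀ k, 0 < e (k + 1)) (g : Ix n d e → ℝ)
    (j : Fin n) (i : Fin d) :
    ∑ x : Ix n d e, g x * Pool.Agent.H789R5.row (pl q n d) (lo x) (up x) (j, i) =
      ∑ k ∈ range (d + 1),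
        (ex g k j * (nod ℝ q (i + 1) ^ (j : ℕ) - nod ℝ q (i + 1) ^ ((j : ℕ) + e (k + 1))) +
          (if e (k + 1) ≤ j then ex g k (j - e (k + 1)) *
            (nod ℝ q (i + 1) ^ (j : ℕ) - nod ℝ q (i + 1) ^ ((j : ℕ) - e (k + 1))) else 0)) := by
  classical
  rw [Finset.sum_range, Fintype.sum_sigma]
  refine Finset.sum_congr rfl fun k _ => ?_
  set κ := nod ℝ q (i + 1) with hκ
  have h1 : ∀ j' : Fin (n - e (k + 1)),
      g ⟨k, j'⟩ * Pool.Agent.H789R5.row (pl q n d) (lo (⟨k, j'⟩ : Ix n d e)) (up ⟨k, j'⟩) (j, i) =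
      (fun t : ℕ => (if t = (j : ℕ) then ex g k j * (κ ^ (j : ℕ) - κ ^ ((j : ℕ) + e (k + 1))) else 0) +
        (if t + e (k + 1) = (j : ℕ) then ex g k (j - e (k + 1)) *
          (κ ^ (j : ℕ) - κ ^ ((j : ℕ) - e (k + 1))) else 0)) (j' : ℕ) := by
    intro j'
    have hk := he k
    have hex := ex_apply g (⟨k, j'⟩ : Ix n d e)
    simp only at hex
    unfold Pool.Agent.H789R5.row
    by_cases h : j = lo (⟨k, j'⟩ : Ix n d e)
    · have hj : (j : ℕ) = j' := by rw [h]; rfl
      have hne : ¬ ((j' : ℕ) + e (k + 1) = (j : ℕ)) := by omega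
      simp only [h, if_true]
      have hj' : ((lo (⟨k, j'⟩ : Ix n d e) : Fin n) : ℕ) = j' := rfl
      have hu' : ((up (⟨k, j'⟩ : Ix n d e) : Fin n) : ℕ) = j' + e (k + 1) := rfl
      rw [if_pos hj'.symm, if_neg (by rw [hj']; omega), add_zero, hj', hex]
      simp only [pl, hj', hu', hκ]
    · by_cases h' : j = up (⟨k, j'⟩ : Ix n d e)
      · have hj : (j : ℕ) = j' + e (k + 1) := by rw [h']; rfl
        simp only [if_neg h, if_pos h']
        rw [if_neg (by omega), if_pos hj.symm, zero_add]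
        have e1 : (j : ℕ) - e (k + 1) = j' := by omega
        rw [e1, hex]
        have hj' : ((lo (⟨k, j'⟩ : Ix n d e) : Fin n) : ℕ) = j' := rfl
        have hu' : ((up (⟨k, j'⟩ : Ix n d e) : Fin n) : ℕ) = j' + e (k + 1) := rfl
        simp only [pl, hj', hu', hκ, hj]
      · simp only [if_neg h, if_neg h', mul_zero]
        rw [if_neg (fun hh => h (Fin.ext hh.symm)), if_neg (fun hh => h' (Fin.ext hh.symm)), add_zero]
  rw [Finset.sum_congr rfl fun j' _ => h1 j']
  rw [Fin.sum_univ_eq_sum_range (fun t : ℕ => (if t = (j : ℕ) then ex g k j *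
    (κ ^ (j : ℕ) - κ ^ ((j : ℕ) + e (k + 1))) else 0) +
        (if t + e (k + 1) = (j : ℕ) then ex g k (j - e (k + 1)) *
          (κ ^ (j : ℕ) - κ ^ ((j : ℕ) - e (k + 1))) else 0)) (n - e (k + 1)), Finset.sum_add_distrib]
  congr 1
  · rw [Finset.sum_ite_eq']
    split_ifs with h
    · rfl
    · rw [Finset.mem_range, not_lt] at h
      rw [ex_of_ge g (by omega), zero_mul]
  · by_cases h : e (k + 1) ≤ (j : ℕ)
    · rw [if_pos h]
      rw [Finset.sum_eq_single ((j : ℕ) - e (k + 1))]
      · rw [if_pos (by omega)]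
      · intro t _ ht
        rw [if_neg (by omega)]
      · intro ht
        exfalso
        apply ht
        rw [Finset.mem_range]
        have := j.2
        omega
    · rw [if_neg h]
      refine Finset.sum_eq_zero fun t _ => ?_
      rw [if_neg (by omega)]

theorem nod_cast (q i : ℕ) : nod ℝ q i = ((nod ℚ q i : ℚ) : ℝ) := by
  unfold nod
  push_cast
  rfl

/-- the rows are linearly independent -/
theorem indep (hSTR : S_STR) {q n d : ℕ} {e : ℕ → ℕ} (he : Exps d e) (hq : q.Prime) (hq2 : 2 < q)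
    (heq : e (d + 1) < q) (hn : n + d * (d + 1) / 2 = ∑ k ∈ range (d + 2), e k) :
    LinearIndependent ℝ (fun x : Ix n d e =>
      Pool.Agent.H789R5.row (pl q n d) (lo x) (up x)) := by
  classical
  have hpos : ∀ k, 0 < e (k + 1) := fun k => by
    have h0 : e 0 < e (k + 1) := he.mono (Nat.succ_pos k)
    exact lt_of_le_of_lt (Nat.zero_le _) h0
  rw [Fintype.linearIndependent_iff]
  intro g hg x
  rw [← Module.forall_dual_apply_eq_zero_iff ℚ]
  intro φ
  have h := hSTR q d n e (fun k j => φ (ex g k j)) he hq hq2 heq hn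
    (fun k j hkj => by rw [ex_of_ge g hkj, map_zero]) (fun j hj i hi1 hid => ?_) x.1 (by omega) x.2
  · rw [ex_apply] at h
    exact h
  · have h1 := congrFun hg (⟨j, hj⟩, ⟨i - 1, by omega⟩)
    simp only [Finset.sum_apply, Pi.smul_apply, smul_eq_mul, Pi.zero_apply] at h1
    rw [col q hpos g ⟨j, hj⟩ ⟨i - 1, by omega⟩] at h1
    have h2 := congrArg φ h1
    rw [map_zero, map_sum] at h2
    refine Eq.trans (Finset.sum_congr rfl fun k _ => ?_) h2
    have hi : i - 1 + 1 = i := by omega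
    simp only [hi]
    rw [map_add]
    congr 1
    · have e1 : ex g k j * (nod ℝ q i ^ j - nod ℝ q i ^ (j + e (k + 1))) =
          (nod ℚ q i ^ j - nod ℚ q i ^ (j + e (k + 1)) : ℚ) • ex g k j := by
        rw [Rat.smul_def, nod_cast]
        push_cast
        ring
      rw [e1, map_smul, smul_eq_mul, mul_comm]
    · split_ifs with h3
      · have e1 : ex g k (j - e (k + 1)) * (nod ℝ q i ^ j - nod ℝ q i ^ (j - e (k + 1))) =
            (nod ℚ q i ^ j - nod ℚ q i ^ (j - e (k + 1)) : ℚ) • ex g k (j - e (k + 1)) := by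
          rw [Rat.smul_def, nod_cast]
          push_cast
          ring
        rw [e1, map_smul, smul_eq_mul, mul_comm]
      · rw [map_zero]

theorem t_RK : S_STR → S_RK := by
  classical
  intro hSTR d n e he hdn hn
  obtain ⟨q, hq1, hq⟩ := Nat.exists_infinite_primes (e (d + 1) + 3)
  have hind := indep hSTR he hq (by omega) (by omega) hn
  have hpos : ∀ k, 0 < e (k + 1) := fun k => by
    have h0 : e 0 < e (k + 1) := he.mono (Nat.succ_pos k)
    exact lt_of_le_of_lt (Nat.zero_le _) h0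
  have hge : ∀ k, k ≤ e k := fun k => he.mono.id_le k
  -- all differences are at most `n`
  have hen : e (d + 1) ≤ n := by
    rw [Finset.sum_range_succ] at hn
    have h1 : ∑ k ∈ range (d + 1), k ≤ ∑ k ∈ range (d + 1), e k :=
      Finset.sum_le_sum fun k _ => hge k
    rw [Finset.sum_range_id] at h1
    have h2 : (d + 1) * (d + 1 - 1) / 2 = d * (d + 1) / 2 := by
      rw [Nat.add_sub_cancel, mul_comm]
    omega
  have hen' : ∀ k < d + 1, e (k + 1) ≤ n := fun k hk =>
    (he.mono.monotone (by omega : k + 1 ≤ d + 1)).trans hen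
  -- the number of the pairs
  have hcard : Fintype.card (Ix n d e) + n + d * (d + 1) / 2 = (d + 1) * n := by
    have h1 : Fintype.card (Ix n d e) = ∑ k ∈ range (d + 1), (n - e (k + 1)) := by
      rw [Fintype.card_sigma, Finset.sum_range]
      exact Finset.sum_congr rfl fun k _ => Fintype.card_fin _
    have h2 : ∑ k ∈ range (d + 1), (n - e (k + 1)) + ∑ k ∈ range (d + 1), e (k + 1) = (d + 1) * n := by
      rw [← Finset.sum_add_distrib, Finset.sum_congr rfl fun k hk =>
        Nat.sub_add_cancel (hen' k (Finset.mem_range.1 hk)), Finset.sum_const, Finset.card_range,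
        smul_eq_mul]
    rw [Finset.sum_range_succ', he.e0, add_zero] at hn
    omega
  -- the rank
  have hrank : Fintype.card (Ix n d e) ≤ (rigidityMatrix (dG n d e) (pl q n d)).rank := by
    rw [Matrix.rank_eq_finrank_span_row]
    have hmem : ∀ x : Ix n d e, Pool.Agent.H789R5.row (pl q n d) (lo x) (up x) ∈
        Submodule.span ℝ (Set.range (rigidityMatrix (dG n d e) (pl q n d)).row) := by
      intro x
      have hadj : (dG n d e).Adj (lo x) (up x) := ⟨x.1, x.1.2, hpos _, Or.inl rfl⟩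
      refine Submodule.subset_span ⟨⟨s(lo x, up x), hadj⟩, rfl⟩
    have h1 := finrank_span_eq_card hind
    rw [← h1]
    refine Submodule.finrank_mono (Submodule.span_le.2 ?_)
    rintro _ ⟨x, rfl⟩
    exact hmem x
  have h3 := rank_add_mo (dG n d e) (pl q n d)
  rw [Fintype.card_fin] at h3
  obtain ⟨p, hp⟩ := exists_mg (Fin n) d
  refine (genRigid_iff hp (by rw [Fintype.card_fin]; exact hdn) _).2 ((hp.min _ (pl q n d)).trans ?_)
  have h4 : (d + 1) * n = d * n + n := by ring
  omega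

end Run7.h462.FWR
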