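import Pool.Agent.Run7.h188.FW.Stm

/-! Project FW of helper188 (Fine-Wilf theorem for generic rigidity), piece EXT. -/

set_option autoImplicit false

namespace Run7.h462.FWE

open Finset Pool.Agent.H283R2.DR Pool.Agent.H789R5 Pool.Agent.Run7.h188.FW

theorem t_EXT : S_EXT := by
  classical
  intro d n e he hen hr
  obtain ⟨p0, hp0⟩ := hr
  obtain ⟨p, hp⟩ := exists_mg (Fin (n + 1)) d
  have hpos : ∀ k, 0 < e (k + 1) := fun k => by
    have h0 : e 0 < e (k + 1) := he.mono (Nat.succ_pos k)
    exact lt_of_le_of_lt (Nat.zero_le _) h0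
  have hle : ∀ k < d + 1, e (k + 1) ≤ n := fun k hk =>
    (he.mono.monotone (by omega : k + 1 ≤ d + 1)).trans hen
  set U : Set (Fin (n + 1)) := {v | (v : ℕ) < n} with hU
  have h1 : RigidOn (dG (n + 1) d e) U p := by
    refine hp.toGen.rigid _ _ (fun v => if h : (v : ℕ) < n then p0 ⟨v, h⟩ else 0) ?_
    intro q hq
    obtain ⟨A, b, hA, hb⟩ := hp0 (fun j => q (Fin.castSucc j)) (by
      intro u v huv
      have h2 := hq (Fin.castSucc u) (by rw [hU]; exact u.2) (Fin.castSucc v)
        (by rw [hU]; exact v.2) huv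
      simpa using h2)
    refine ⟨A, b, hA, fun v hv => ?_⟩
    have hv' : (v : ℕ) < n := hv
    have h3 := hb ⟨v, hv'⟩
    show q v = A.mulVec (if h : (v : ℕ) < n then p0 ⟨v, h⟩ else 0) + b
    rw [dif_pos hv']
    exact h3
  have hinj : Set.InjOn (fun k : ℕ => (⟨n - e (k + 1), by omega⟩ : Fin (n + 1)))
      (range (d + 1) : Set ℕ) := by
    intro k hk l hl hkl
    have hk' := hle k (by simpa using hk)
    have hl' := hle l (by simpa using hl)
    have h4 : n - e (k + 1) = n - e (l + 1) := congrArg Fin.val hkl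
    have h5 : e (k + 1) = e (l + 1) := by omega
    have h6 := he.mono.injective h5
    omega
  have h2 := IL.extend hp.toGen (dG (n + 1) d e) U h1 (Fin.last n)
    ((range (d + 1)).image fun k : ℕ => (⟨n - e (k + 1), by omega⟩ : Fin (n + 1)))
    (by rw [Finset.card_image_of_injOn hinj, Finset.card_range]; omega)
    (by
      intro u hu
      obtain ⟨k, hk, rfl⟩ := Finset.mem_image.1 hu
      have h3 := hpos k
      have h4 := hle k (Finset.mem_range.1 hk)
      show n - e (k + 1) < n
      omega)
    (by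
      intro u hu
      obtain ⟨k, hk, rfl⟩ := Finset.mem_image.1 hu
      have h4 := hle k (Finset.mem_range.1 hk)
      refine ⟨k, Finset.mem_range.1 hk, hpos k, Or.inr ?_⟩
      show n - e (k + 1) + e (k + 1) = n
      omega)
  rw [hp.toGen.genRigid_iff]
  refine IL.mono_set h2 ?_
  ext v
  simp only [Set.mem_insert_iff, Set.mem_univ, iff_true, hU, Set.mem_ofPred_eq]
  by_cases h : (v : ℕ) < n
  · exact Or.inr h
  · left
    apply Fin.ext
    rw [Fin.val_last]
    omega

end Run7.h462.FWE
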