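import Pool.Agent.Run7.h188.FW.Stm

/-! Project FW of helper188 (Fine-Wilf theorem for generic rigidity), piece C2: the cofactors have
the greatest common divisor `∏ (X - κ i κ j)`. -/

set_option autoImplicit false

namespace Run7.h462.FW

open Finset Polynomial Pool.Agent.Run7.h188.FW

/-- `n` independent vectors in dimension `n + 1` can be completed by a standard basis vector -/
theorem exists_single {L : Type} [Field L] {n : ℕ} (v : Fin n → (Fin (n + 1) → L))
    (hv : LinearIndependent L v) :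
    ∃ k : Fin (n + 1), (Matrix.of (Fin.cons (Pi.single k (1 : L)) v) :
      Matrix (Fin (n + 1)) (Fin (n + 1)) L).det ≠ 0 := by
  classical
  have h1 : ∃ k : Fin (n + 1), (Pi.single k (1 : L) : Fin (n + 1) → L) ∉
      Submodule.span L (Set.range v) := by
    by_contra hcon
    push Not at hcon
    have htop : Submodule.span L (Set.range v) = ⊤ := by
      rw [eq_top_iff]
      intro w _
      have : w = ∑ k, w k • (Pi.single k (1 : L) : Fin (n + 1) → L) := by
        rw [← Finset.univ_sum_single w]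
        refine Finset.sum_congr rfl fun k _ => ?_
        rw [Finset.univ_sum_single w]
        ext j
        by_cases hj : j = k
        · subst hj; simp
        · simp [hj]
      rw [this]
      exact Submodule.sum_mem _ fun k _ => Submodule.smul_mem _ _ (hcon k)
    have h2 := finrank_range_le_card (R := L) v
    rw [Set.finrank, htop, finrank_top, Module.finrank_fin_fun, Fintype.card_fin] at h2
    omega
  obtain ⟨k, hk⟩ := h1
  refine ⟨k, ?_⟩
  have h3 : LinearIndependent L (Fin.cons (Pi.single k (1 : L)) v : Fin (n + 1) → (Fin (n + 1) → L)) :=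
    linearIndependent_finCons.2 ⟨hv, hk⟩
  have h4 : IsUnit (Matrix.of (Fin.cons (Pi.single k (1 : L)) v) :
      Matrix (Fin (n + 1)) (Fin (n + 1)) L) :=
    Matrix.linearIndependent_rows_iff_isUnit.1 h3
  exact ((Matrix.isUnit_iff_isUnit_det _).1 h4).ne_zero

variable {L : Type} [Field L]

/-- the matrix of the cofactor -/
noncomputable def Mk (κ : ℕ → L) (d : ℕ) (e : ℕ → ℕ) (k : Fin (d + 2)) :
    Matrix (Fin (d + 2)) (Fin (d + 2)) L[X] :=
  Matrix.of (Fin.cons (Pi.single k 1) (fun (i : Fin (d + 1)) (l : Fin (d + 2)) => row κ i (e l)))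

theorem Cf_eq (κ : ℕ → L) (d : ℕ) (e : ℕ → ℕ) (k : Fin (d + 2)) :
    Cf κ d e k = (Mk κ d e k).det := by
  unfold Cf
  congr 1
  ext i l
  refine Fin.cases ?_ (fun i => ?_) i
  · rw [Matrix.updateRow_self]
    simp [Mk]
  · rw [Matrix.updateRow_ne (Fin.succ_ne_zero i)]
    simp [Mk, N]

theorem eval_row {κ : ℕ → L} (z : L) (i x : ℕ) : (row κ i x).eval z = T κ z i x := by
  unfold row T
  rw [eval_add, eval_C, eval_mul, eval_C, eval_pow, eval_X, div_pow, inv_pow, div_eq_inv_mul]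

theorem eval_det {n : ℕ} (M : Matrix (Fin n) (Fin n) L[X]) (z : L) :
    M.det.eval z = (M.map (fun p => p.eval z)).det := by
  have := RingHom.map_det (evalRingHom z) M
  simpa using this

theorem mapMk (κ : ℕ → L) (d : ℕ) (e : ℕ → ℕ) (k : Fin (d + 2)) (z : L) :
    (Mk κ d e k).map (fun p => p.eval z) =
      Matrix.of (Fin.cons (Pi.single k (1 : L))
        (fun (i : Fin (d + 1)) (l : Fin (d + 2)) => T κ z i (e l))) := by
  ext i l
  refine Fin.cases ?_ (fun i => ?_) i
  · simp only [Mk, Matrix.map_apply, Matrix.of_apply, Fin.cons_zero]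
    by_cases h : l = k
    · subst h; simp
    · simp [h]
  · simp only [Mk, Matrix.map_apply, Matrix.of_apply, Fin.cons_succ]
    exact eval_row z _ _

theorem T_eq {κ : ℕ → L} (hκ : ∀ i, κ i ≠ 0) (i j x : ℕ) :
    T κ (κ i * κ j) i x = T κ (κ i * κ j) j x := by
  unfold T
  have h1 : κ i * κ j / κ i = κ j := by field_simp [hκ i]
  have h2 : κ i * κ j / κ j = κ i := by field_simp [hκ j]
  rw [h1, h2, add_comm]

/-- the divided row -/
noncomputable def G (κ : ℕ → L) (i j x : ℕ) : L[X] :=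
  C ((κ i * κ j)⁻¹ * (κ j ^ x - κ i ^ x)) * ∑ t ∈ range x, (C (κ i * κ j)⁻¹ * X) ^ t

theorem row_sub {κ : ℕ → L} (hκ : ∀ i, κ i ≠ 0) (i j x : ℕ) :
    row κ i x - row κ j x = (X - C (κ i * κ j)) * G κ i j x := by
  have hz : κ i * κ j ≠ 0 := mul_ne_zero (hκ i) (hκ j)
  have hg : (∑ t ∈ range x, (C (κ i * κ j)⁻¹ * X : L[X]) ^ t) * (C (κ i * κ j)⁻¹ * X - 1) =
      (C (κ i * κ j)⁻¹ * X) ^ x - 1 := geom_sum_mul _ _
  have hX : (X - C (κ i * κ j) : L[X]) * C (κ i * κ j)⁻¹ = C (κ i * κ j)⁻¹ * X - 1 := by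
    rw [sub_mul, ← C_mul, mul_inv_cancel₀ hz, C_1]
    ring
  have hl : row κ i x - row κ j x =
      C (κ j ^ x - κ i ^ x) * ((C (κ i * κ j)⁻¹ * X) ^ x - 1) := by
    have e1 : (κ i)⁻¹ ^ x - (κ j)⁻¹ ^ x = (κ j ^ x - κ i ^ x) * ((κ i * κ j)⁻¹) ^ x := by
      have h1 := pow_ne_zero x (hκ i)
      have h2 := pow_ne_zero x (hκ j)
      rw [mul_inv, mul_pow, inv_pow, inv_pow]
      field_simp
    have e2 : row κ i x - row κ j x = C (κ i ^ x - κ j ^ x) + C ((κ i)⁻¹ ^ x - (κ j)⁻¹ ^ x) * X ^ x := by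
      unfold row
      simp only [C_sub]
      ring
    rw [e2, e1, mul_pow, ← C_pow]
    simp only [C_sub, C_mul]
    ring
  rw [hl, ← hg, ← hX]
  unfold G
  simp only [C_mul]
  ring

theorem eval_G {κ : ℕ → L} (hκ : ∀ i, κ i ≠ 0) (i j x : ℕ) :
    (G κ i j x).eval (κ i * κ j) = (κ i * κ j)⁻¹ * ((x : L) * (κ j ^ x - κ i ^ x)) := by
  have hz : κ i * κ j ≠ 0 := mul_ne_zero (hκ i) (hκ j)
  unfold G
  rw [eval_mul, eval_C, eval_finsetSum]
  have : ∀ t ∈ range x, ((C (κ i * κ j)⁻¹ * X : L[X]) ^ t).eval (κ i * κ j) = 1 := by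
    intro t _
    rw [eval_pow, eval_mul, eval_C, eval_X, inv_mul_cancel₀ hz, one_pow]
  rw [Finset.sum_congr rfl this]
  simp
  ring

/-- the determinant with the divided row -/
theorem Cf_div {κ : ℕ → L} (hκ : ∀ i, κ i ≠ 0) {d : ℕ} (e : ℕ → ℕ) (i j : Fin (d + 1)) (hij : i ≠ j)
    (k : Fin (d + 2)) :
    Cf κ d e k = (X - C (κ i * κ j)) *
      ((Mk κ d e k).updateRow i.succ (fun l => G κ i j (e l))).det := by
  rw [Cf_eq, ← Matrix.det_updateRow_smul, ← Matrix.det_updateRow_add_smul_self (Mk κ d e k)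
    (i := i.succ) (j := j.succ) (by simpa using hij) (-1)]
  congr 2
  funext l
  simp only [Mk, Pi.add_apply, Pi.smul_apply, smul_eq_mul, Matrix.of_apply, Fin.cons_succ]
  rw [← row_sub hκ]
  ring

theorem indep_a {κ : ℕ → L} {d : ℕ} {e : ℕ → ℕ} {z : L}
    (h : ∀ c : ℕ → L, (∀ k ≤ d + 1, ∑ i ∈ range (d + 1), c i * T κ z i (e k) = 0) →
      ∀ i ≤ d, c i = 0) :
    LinearIndependent L (fun (i : Fin (d + 1)) (l : Fin (d + 2)) => T κ z i (e l)) := by
  rw [Fintype.linearIndependent_iff]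
  intro g hg i
  have h1 := h (fun n => if hn : n < d + 1 then g ⟨n, hn⟩ else 0) (by
    intro k hk
    have h2 := congrFun hg ⟨k, by omega⟩
    simp only [Finset.sum_apply, Pi.smul_apply, smul_eq_mul, Pi.zero_apply] at h2
    rw [Finset.sum_range]
    refine Eq.trans (Finset.sum_congr rfl fun m _ => ?_) h2
    rw [dif_pos m.2]) i (by omega)
  simpa only [dif_pos i.2] using h1

theorem indep_b {κ : ℕ → L} (hκ : ∀ i, κ i ≠ 0) {d : ℕ} {e : ℕ → ℕ} (i j : Fin (d + 1))
    (h : ∀ (c : ℕ → L) (c' : L), c i = 0 →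
      (∀ k ≤ d + 1, ∑ l ∈ range (d + 1), c l * T κ (κ i * κ j) l (e k) +
        c' * ((e k : L) * (κ j ^ (e k) - κ i ^ (e k))) = 0) → c' = 0 ∧ ∀ l ≤ d, c l = 0) :
    LinearIndependent L (Function.update
      (fun (m : Fin (d + 1)) (l : Fin (d + 2)) => T κ (κ i * κ j) m (e l)) i
      (fun l => (κ i * κ j)⁻¹ * ((e l : L) * (κ j ^ (e l) - κ i ^ (e l))))) := by
  classical
  have hz : κ i * κ j ≠ 0 := mul_ne_zero (hκ i) (hκ j)
  rw [Fintype.linearIndependent_iff]
  intro g hg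
  have h1 := h (fun n => if hn : n < d + 1 then (if n = i then 0 else g ⟨n, hn⟩) else 0)
    (g i * (κ i * κ j)⁻¹) (by simp) (by
    intro k hk
    have h2 := congrFun hg ⟨k, by omega⟩
    simp only [Finset.sum_apply, Pi.smul_apply, smul_eq_mul, Pi.zero_apply] at h2
    rw [← Finset.add_sum_erase _ _ (Finset.mem_univ i), Function.update_self] at h2
    rw [Finset.sum_range, ← Finset.add_sum_erase _ _ (Finset.mem_univ i), dif_pos i.2, if_pos rfl,
      zero_mul, zero_add]
    have e1 : ∑ m ∈ univ.erase i, (if hn : (m : ℕ) < d + 1 then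
        (if (m : ℕ) = i then (0 : L) else g ⟨m, hn⟩) else 0) * T κ (κ i * κ j) m (e k) =
        ∑ m ∈ univ.erase i, g m * Function.update
      (fun (m : Fin (d + 1)) (l : Fin (d + 2)) => T κ (κ i * κ j) m (e l)) i
      (fun l => (κ i * κ j)⁻¹ * ((e l : L) * (κ j ^ (e l) - κ i ^ (e l)))) m ⟨k, by omega⟩ := by
      refine Finset.sum_congr rfl fun m hm => ?_
      have hmi : m ≠ i := (Finset.mem_erase.1 hm).1
      rw [Function.update_of_ne hmi, dif_pos m.2, if_neg (fun hh => hmi (Fin.ext hh))]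
    rw [e1]
    linear_combination h2)
  obtain ⟨h2, h3⟩ := h1
  intro m
  by_cases hm : m = i
  · subst hm
    exact (mul_eq_zero.1 h2).resolve_right (inv_ne_zero hz)
  · have h4 := h3 m (by omega)
    rwa [dif_pos m.2, if_neg (fun hh => hm (Fin.ext hh))] at h4

theorem natDegree_P {d : ℕ} (b : (Σ _ : ℕ, ℕ) → L) :
    (∏ p ∈ (range (d + 1)).sigma (fun j => range j), (X - C (b p))).natDegree =
      d * (d + 1) / 2 := by
  rw [natDegree_finsetProd_X_sub_C_eq_card, Finset.card_sigma]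
  simp only [Finset.card_range]
  rw [Finset.sum_range_id, mul_comm]
  rfl

theorem t_C2 : S_C2 := by
  classical
  intro L _ κ d e hκ hsep hI1 hI2
  set Q : Finset (Σ _ : ℕ, ℕ) := (range (d + 1)).sigma (fun j => range j) with hQ
  set P : L[X] := ∏ p ∈ Q, (X - C (κ p.2 * κ p.1)) with hP
  have hmemQ : ∀ p : (Σ _ : ℕ, ℕ), p ∈ Q ↔ p.2 < p.1 ∧ p.1 ≤ d := by
    intro p
    rw [hQ, Finset.mem_sigma, Finset.mem_range, Finset.mem_range]
    omega
  have hdiv : ∀ k, ∃ D, Cf κ d e k = P * D := by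
    intro k
    refine Finset.prod_dvd_of_coprime ?_ ?_
    · intro p hp q hq hpq
      refine isCoprime_X_sub_C_of_isUnit_sub (IsUnit.mk0 _ (sub_ne_zero.2 fun heq => hpq ?_))
      have hp' := (hmemQ p).1 hp
      have hq' := (hmemQ q).1 hq
      obtain ⟨h1, h2⟩ := hsep p.2 p.1 q.2 q.1 hp'.1 hq'.1 heq
      obtain ⟨a, b⟩ := p
      obtain ⟨a', b'⟩ := q
      simp only at h1 h2
      subst h1 h2
      rfl
    · intro p hp
      have hp' := (hmemQ p).1 hp
      have h1 := Cf_div hκ e (⟨p.2, by omega⟩ : Fin (d + 1)) ⟨p.1, by omega⟩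
        (fun h => by rw [Fin.mk.injEq] at h; omega) k
      exact ⟨_, h1⟩
  choose D hD using hdiv
  refine ⟨P, D, monic_prod_X_sub_C _ _, natDegree_P _, hD, fun z => ?_⟩
  by_cases hz : ∃ i j, i < j ∧ j ≤ d ∧ z = κ i * κ j
  · obtain ⟨i, j, hij, hj, rfl⟩ := hz
    obtain ⟨k, hk⟩ := exists_single _ (indep_b (e := e) hκ (⟨i, by omega⟩ : Fin (d + 1))
      ⟨j, by omega⟩ (hI2 i j hij hj))
    refine ⟨k, fun h0 => hk ?_⟩
    have h1 := Cf_div hκ e (⟨i, by omega⟩ : Fin (d + 1)) ⟨j, by omega⟩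
      (fun h => by rw [Fin.mk.injEq] at h; omega) k
    have hmem : (⟨j, i⟩ : Σ _ : ℕ, ℕ) ∈ Q := (hmemQ _).2 ⟨hij, hj⟩
    rw [hD, hP, ← Finset.mul_prod_erase Q _ hmem, mul_assoc] at h1
    have h2 := mul_left_cancel₀ (X_sub_C_ne_zero _) h1
    have h3 := congrArg (fun p => p.eval (κ i * κ j)) h2
    simp only [eval_mul, h0, mul_zero] at h3
    rw [eval_det] at h3
    rw [h3]
    congr 1
    ext a l
    refine Fin.cases ?_ (fun a => ?_) a
    · rw [Matrix.map_apply, Matrix.updateRow_ne (Fin.succ_ne_zero _).symm]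
      have h4 := congrFun (congrFun (mapMk κ d e k (κ i * κ j)) 0) l
      rw [Matrix.map_apply] at h4
      rw [h4]
      simp
    · by_cases ha : a = ⟨i, by omega⟩
      · subst ha
        rw [Matrix.map_apply, Matrix.updateRow_self]
        simp only [Matrix.of_apply, Fin.cons_succ, Function.update_self]
        exact (eval_G hκ i j _).symm
      · rw [Matrix.map_apply, Matrix.updateRow_ne (fun h => ha (Fin.succ_injective _ h))]
        have h4 := congrFun (congrFun (mapMk κ d e k (κ i * κ j)) a.succ) l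
        rw [Matrix.map_apply] at h4
        rw [h4]
        simp only [Matrix.of_apply, Fin.cons_succ]
        rw [Function.update_of_ne ha]
  · push Not at hz
    obtain ⟨k, hk⟩ := exists_single _ (indep_a (hI1 z fun i j hij hj => hz i j hij hj))
    refine ⟨k, fun h0 => hk ?_⟩
    rw [← mapMk, ← eval_det, ← Cf_eq, hD, eval_mul, h0, mul_zero]

end Run7.h462.FW
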