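import Pool.Agent.Run7.h188.FW.Stm

/-! Project FW of helper188 (Fine-Wilf theorem for generic rigidity), piece STR. -/

set_option autoImplicit false

namespace Run7.h462.FWS

open Finset Polynomial Pool.Agent.Run7.h188.FW

/-- the polynomial of the stresses of the difference `e (k + 1)` -/
noncomputable def Wk (n : ℕ) (w : ℕ → ℕ → ℚ) (k : ℕ) : ℚ[X] := ∑ j ∈ range n, monomial j (w k j)

theorem coeff_Wk {n : ℕ} {w : ℕ → ℕ → ℚ} (k : ℕ) (h : ∀ j, n ≤ j → w k j = 0) (j : ℕ) :
    (Wk n w k).coeff j = w k j := by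
  unfold Wk
  rw [finsetSum_coeff]
  simp only [coeff_monomial]
  rw [Finset.sum_ite_eq']
  split_ifs with h1
  · rfl
  · rw [Finset.mem_range, not_lt] at h1
    exact (h j h1).symm

theorem t_STR : S_ALG → S_STR := by
  intro hALG q d n e w he hq hq2 heq hn hw0 hw
  have hcw : ∀ k j, (Wk n w k).coeff j = w k j := fun k j =>
    coeff_Wk k (fun j hj => hw0 k j (by omega)) j
  set W0 : ℚ[X] := - (C (1 / 2) * ∑ k ∈ range (d + 1), (1 + X ^ (e (k + 1))) * Wk n w k) with hW0
  set W : Fin (d + 2) → ℚ[X] := Fin.cons W0 (fun k : Fin (d + 1) => Wk n w k) with hW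
  have hne : ∀ i, nod ℚ q i ≠ 0 := by
    intro i
    unfold nod
    exact pow_ne_zero _ (by exact_mod_cast hq.ne_zero)
  have key : ∀ k, W k = 0 := by
    refine hALG q d e W he hq hq2 heq ?_ ?_
    · intro i
      rw [Fin.sum_univ_succ]
      have h1 : ∀ k : Fin (d + 1), row (nod ℚ q) i (e (k.succ : Fin (d + 2))) * W k.succ =
          (fun k : ℕ => row (nod ℚ q) i (e (k + 1)) * Wk n w k) (k : ℕ) := by
        intro k
        simp only [hW, Fin.cons_succ, Fin.val_succ]
      rw [Finset.sum_congr rfl fun k _ => h1 k,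
        Fin.sum_univ_eq_sum_range (fun k : ℕ => row (nod ℚ q) i (e (k + 1)) * Wk n w k) (d + 1)]
      have h2 : row (nod ℚ q) i (e ((0 : Fin (d + 2)) : ℕ)) * W 0 =
          - ∑ k ∈ range (d + 1), (1 + X ^ (e (k + 1))) * Wk n w k := by
        simp only [hW, Fin.cons_zero, Fin.val_zero, he.e0]
        unfold row
        rw [hW0]
        have h3 : (C (nod ℚ q i ^ 0) + C ((nod ℚ q i)⁻¹ ^ 0) * X ^ 0 : ℚ[X]) = C 2 := by
          simp only [pow_zero, C_1, mul_one]
          rw [show (2 : ℚ) = 1 + 1 by norm_num, C_add, C_1]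
        rw [h3, mul_neg, ← mul_assoc, ← C_mul, show (2 : ℚ) * (1 / 2) = 1 by norm_num, C_1, one_mul]
      rw [h2, ← Finset.sum_neg_distrib, ← Finset.sum_add_distrib]
      ext j
      rw [finsetSum_coeff, coeff_zero]
      set κ := nod ℚ q i with hκ
      have h4 : ∀ k ∈ range (d + 1), (-((1 + X ^ (e (k + 1))) * Wk n w k) +
          row (nod ℚ q) i (e (k + 1)) * Wk n w k).coeff j =
          (κ ^ (e (k + 1)) - 1) * w k j +
            (κ⁻¹ ^ (e (k + 1)) - 1) * (if e (k + 1) ≤ j then w k (j - e (k + 1)) else 0) := by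
        intro k _
        have h5 : (-((1 + X ^ (e (k + 1))) * Wk n w k) + row (nod ℚ q) i (e (k + 1)) * Wk n w k) =
            C (κ ^ (e (k + 1)) - 1) * Wk n w k +
              C (κ⁻¹ ^ (e (k + 1)) - 1) * (X ^ (e (k + 1)) * Wk n w k) := by
          unfold row
          simp only [C_sub, C_1, hκ]
          ring
        rw [h5, coeff_add, coeff_C_mul, coeff_C_mul, coeff_X_pow_mul', hcw, hcw]
      rw [Finset.sum_congr rfl h4]
      by_cases hj : j < n
      · by_cases hi : (i : ℕ) = 0
        · have hκ1 : κ = 1 := by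
            rw [hκ, hi]
            unfold nod
            simp
          refine Finset.sum_eq_zero fun k _ => ?_
          rw [hκ1]
          simp
        · have h6 := hw j hj i (by omega) (by omega)
          have h7 : ∑ k ∈ range (d + 1),
              (w k j * (κ ^ j - κ ^ (j + e (k + 1))) +
                (if e (k + 1) ≤ j then w k (j - e (k + 1)) *
                  (κ ^ j - κ ^ (j - e (k + 1))) else 0)) =
              - κ ^ j * ∑ k ∈ range (d + 1), ((κ ^ (e (k + 1)) - 1) * w k j +
                (κ⁻¹ ^ (e (k + 1)) - 1) *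
                  (if e (k + 1) ≤ j then w k (j - e (k + 1)) else 0)) := by
            rw [Finset.mul_sum]
            refine Finset.sum_congr rfl fun k _ => ?_
            have hκ0 : κ ≠ 0 := hne i
            split_ifs with h8
            · have e1 : κ ^ j = κ ^ (j - e (k + 1)) * κ ^ (e (k + 1)) := by
                rw [← pow_add, Nat.sub_add_cancel h8]
              have e2 : κ ^ j * κ⁻¹ ^ (e (k + 1)) = κ ^ (j - e (k + 1)) := by
                rw [e1, inv_pow, mul_assoc, mul_inv_cancel₀ (pow_ne_zero _ hκ0), mul_one]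
              rw [pow_add, ← e2]
              ring
            · rw [pow_add]
              ring
          rw [h7] at h6
          exact (mul_eq_zero.1 h6).resolve_left (neg_ne_zero.2 (pow_ne_zero _ (hne i)))
      · refine Finset.sum_eq_zero fun k _ => ?_
        rw [hw0 k j (by omega)]
        split_ifs with h8
        · rw [hw0 k (j - e (k + 1)) (by omega)]
          ring
        · ring
    · intro j hj
      have h1 : W (Fin.last (d + 1)) = Wk n w d := by
        rw [← Fin.succ_last, hW, Fin.cons_succ, Fin.val_last]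
      rw [h1, hcw]
      apply hw0
      rw [Finset.sum_range_succ] at hn
      omega
  intro k hk j
  have h1 := key (Fin.succ ⟨k, by omega⟩)
  rw [hW, Fin.cons_succ] at h1
  simp only at h1
  rw [← hcw, h1, coeff_zero]

end Run7.h462.FWS
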